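import Pool.Agent.Lib.MP_d71970_an.Core

/-!
# Commutator identities for two normal matrices
-/

set_option autoImplicit false

open Matrix

namespace Pool.Agent.Lib.MP_d71970_an

variable {n : Type*} [Fintype n] [DecidableEq n]

omit [DecidableEq n] in
lemma nsq_comm_eq (A B : Matrix n n ℂ) (hA : Aᴴ * A = A * Aᴴ) :
    nsq (A * B - B * A) = nsq (Aᴴ * B - B * Aᴴ) := by
  have h1 : (A * B - B * A)ᴴ * (A * B - B * A) =
      Bᴴ * (Aᴴ * A) * B - Bᴴ * Aᴴ * B * A - Aᴴ * (Bᴴ * A * B) + Aᴴ * (Bᴴ * B * A) := by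
    rw [Matrix.conjTranspose_sub, Matrix.conjTranspose_mul, Matrix.conjTranspose_mul]
    noncomm_ring
  have h2 : (Aᴴ * B - B * Aᴴ)ᴴ * (Aᴴ * B - B * Aᴴ) =
      Bᴴ * (A * Aᴴ) * B - Bᴴ * A * B * Aᴴ - A * (Bᴴ * Aᴴ * B) + A * (Bᴴ * B * Aᴴ) := by
    rw [Matrix.conjTranspose_sub, Matrix.conjTranspose_mul, Matrix.conjTranspose_mul,
      Matrix.conjTranspose_conjTranspose]
    noncomm_ring
  have t1 : (Aᴴ * (Bᴴ * A * B)).trace = (Bᴴ * A * B * Aᴴ).trace := Matrix.trace_mul_comm _ _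
  have t2 : (Bᴴ * Aᴴ * B * A).trace = (A * (Bᴴ * Aᴴ * B)).trace := Matrix.trace_mul_comm _ _
  have t3 : (Aᴴ * (Bᴴ * B * A)).trace = (A * (Bᴴ * B * Aᴴ)).trace := by
    rw [Matrix.trace_mul_comm Aᴴ, Matrix.trace_mul_comm A,
      show Bᴴ * B * A * Aᴴ = Bᴴ * B * (A * Aᴴ) by noncomm_ring,
      show Bᴴ * B * Aᴴ * A = Bᴴ * B * (Aᴴ * A) by noncomm_ring, hA]
  simp only [nsq, h1, h2, Matrix.trace_add, Matrix.trace_sub, t1, t2, t3, hA]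
  congr 1
  ring

omit [DecidableEq n] in
/-- `Dᴴ D - D Dᴴ = -(g + gᴴ)` for `D = A - B` and `g = Aᴴ B - B Aᴴ`. -/
lemma selfcomm_eq (A B : Matrix n n ℂ) (hA : Aᴴ * A = A * Aᴴ) (hB : Bᴴ * B = B * Bᴴ) :
    (A - B)ᴴ * (A - B) - (A - B) * (A - B)ᴴ =
      -((Aᴴ * B - B * Aᴴ) + (Aᴴ * B - B * Aᴴ)ᴴ) := by
  rw [Matrix.conjTranspose_sub, Matrix.conjTranspose_sub, Matrix.conjTranspose_mul,
    Matrix.conjTranspose_mul, Matrix.conjTranspose_conjTranspose]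
  have : (Aᴴ - Bᴴ) * (A - B) - (A - B) * (Aᴴ - Bᴴ) =
      (Aᴴ * A - A * Aᴴ) + (Bᴴ * B - B * Bᴴ) - (Aᴴ * B - B * Aᴴ + (Bᴴ * A - A * Bᴴ)) := by
    noncomm_ring
  rw [this, hA, hB]
  noncomm_ring

omit [DecidableEq n] in
lemma crit_expand (A B D : Matrix n n ℂ) (hD : D = A - B) (hA : Aᴴ * A = A * Aᴴ)
    (hB : Bᴴ * B = B * Bᴴ) (g c S J Z : Matrix n n ℂ) (hg : g = Aᴴ * B - B * Aᴴ)
    (hc : c = A * B - B * A) (hS : S = Dᴴ * D + D * Dᴴ) (hJ : J = g - gᴴ)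
    (hZ : Z = D * Dᴴ * D) :
    J * S + S * J = (D * cᴴ * D - Dᴴ * c * Dᴴ) + (D * cᴴ * D - Dᴴ * c * Dᴴ)
      - ((Bᴴ * Z - Z * Bᴴ + B * Zᴴ - Zᴴ * B) + (Bᴴ * Z - Z * Bᴴ + B * Zᴴ - Zᴴ * B)) := by
  have k : Dᴴ * D - D * Dᴴ = -(g + gᴴ) := by
    rw [hD, hg]; exact selfcomm_eq A B hA hB
  have hgs : gᴴ = Bᴴ * A - A * Bᴴ := by
    rw [hg, Matrix.conjTranspose_sub, Matrix.conjTranspose_mul, Matrix.conjTranspose_mul,
      Matrix.conjTranspose_conjTranspose]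
  have hcs : cᴴ = Bᴴ * Aᴴ - Aᴴ * Bᴴ := by
    rw [hc, Matrix.conjTranspose_sub, Matrix.conjTranspose_mul, Matrix.conjTranspose_mul]
  have i1 : Bᴴ * D - D * Bᴴ = gᴴ := by
    rw [hgs, hD]
    have : Bᴴ * (A - B) - (A - B) * Bᴴ = (Bᴴ * A - A * Bᴴ) - (Bᴴ * B - B * Bᴴ) := by noncomm_ring
    rw [this, hB]; noncomm_ring
  have i2 : Bᴴ * Dᴴ - Dᴴ * Bᴴ = cᴴ := by
    rw [hcs, hD, Matrix.conjTranspose_sub]
    noncomm_ring
  have i3 : Bᴴ * Z - Z * Bᴴ = gᴴ * (Dᴴ * D) + D * cᴴ * D + (D * Dᴴ) * gᴴ := by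
    rw [hZ, ← i1, ← i2]
    noncomm_ring
  have i4 : B * Zᴴ - Zᴴ * B = -((Dᴴ * D) * g + Dᴴ * c * Dᴴ + g * (D * Dᴴ)) := by
    have := congrArg Matrix.conjTranspose i3
    simp only [Matrix.conjTranspose_sub, Matrix.conjTranspose_add, Matrix.conjTranspose_mul,
      Matrix.conjTranspose_conjTranspose] at this
    have h2 : B * Zᴴ - Zᴴ * B = -(Zᴴ * B - B * Zᴴ) := by noncomm_ring
    rw [h2, this]
    noncomm_ring
  have i5 : Bᴴ * Z - Z * Bᴴ + B * Zᴴ - Zᴴ * B = (Bᴴ * Z - Z * Bᴴ) + (B * Zᴴ - Zᴴ * B) := by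
    noncomm_ring
  rw [i5, i3, i4, hJ, hS]
  have k2 : (g + gᴴ) * (Dᴴ * D - D * Dᴴ) = (Dᴴ * D - D * Dᴴ) * (g + gᴴ) := by
    rw [k]; noncomm_ring
  have k3 : g * (Dᴴ * D) + gᴴ * (Dᴴ * D) - g * (D * Dᴴ) - gᴴ * (D * Dᴴ) =
      (Dᴴ * D) * g + (Dᴴ * D) * gᴴ - (D * Dᴴ) * g - (D * Dᴴ) * gᴴ := by
    have e1 : g * (Dᴴ * D) + gᴴ * (Dᴴ * D) - g * (D * Dᴴ) - gᴴ * (D * Dᴴ) =
      (g + gᴴ) * (Dᴴ * D - D * Dᴴ) := by noncomm_ring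
    have e2 : (Dᴴ * D) * g + (Dᴴ * D) * gᴴ - (D * Dᴴ) * g - (D * Dᴴ) * gᴴ =
      (Dᴴ * D - D * Dᴴ) * (g + gᴴ) := by noncomm_ring
    rw [e1, e2, k2]
  have k4 : (g - gᴴ) * (Dᴴ * D + D * Dᴴ) + (Dᴴ * D + D * Dᴴ) * (g - gᴴ) -
      ((D * cᴴ * D - Dᴴ * c * Dᴴ) + (D * cᴴ * D - Dᴴ * c * Dᴴ)
      - ((gᴴ * (Dᴴ * D) + D * cᴴ * D + (D * Dᴴ) * gᴴ +
          -((Dᴴ * D) * g + Dᴴ * c * Dᴴ + g * (D * Dᴴ))) +
         (gᴴ * (Dᴴ * D) + D * cᴴ * D + (D * Dᴴ) * gᴴ +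
          -((Dᴴ * D) * g + Dᴴ * c * Dᴴ + g * (D * Dᴴ))))) =
      (g * (Dᴴ * D) + gᴴ * (Dᴴ * D) - g * (D * Dᴴ) - gᴴ * (D * Dᴴ)) -
      ((Dᴴ * D) * g + (Dᴴ * D) * gᴴ - (D * Dᴴ) * g - (D * Dᴴ) * gᴴ) := by
    noncomm_ring
  rw [k3, sub_self] at k4
  exact sub_eq_zero.mp k4

/-- The key inequality at a critical point: the skew part of `[Aᴴ, B]` is dominated by its
Hermitian part. -/
theorem skew_le (A B D : Matrix n n ℂ) (hD : D = A - B) (hA : Aᴴ * A = A * Aᴴ)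
    (hB : Bᴴ * B = B * Bᴴ) (g J Z X : Matrix n n ℂ) (hg : g = Aᴴ * B - B * Aᴴ)
    (hJ : J = g - gᴴ) (hZ : Z = D * Dᴴ * D)
    (hcrit : Bᴴ * Z - Z * Bᴴ + B * Zᴴ - Zᴴ * B = 0) (hX : Xᴴ = -X)
    (hL : (Dᴴ * D + D * Dᴴ) * X + X * (Dᴴ * D + D * Dᴴ) = J) :
    nsq J ≤ nsq (Dᴴ * D - D * Dᴴ) := by
  set S : Matrix n n ℂ := Dᴴ * D + D * Dᴴ with hS
  set c : Matrix n n ℂ := A * B - B * A with hc
  have hK : Dᴴ * D - D * Dᴴ = -(g + gᴴ) := by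
    rw [hD, hg]; exact selfcomm_eq A B hA hB
  have hJs : Jᴴ = -J := by
    rw [hJ, Matrix.conjTranspose_sub, Matrix.conjTranspose_conjTranspose]; noncomm_ring
  -- the norms of the commutators
  have hpar : nsq J + nsq (Dᴴ * D - D * Dᴴ) = 4 * nsq c := by
    have h1 := nsq_add_add_nsq_sub g gᴴ
    rw [nsq_conjTranspose] at h1
    rw [hK, nsq_neg, hJ, hc, nsq_comm_eq A B hA, ← hg]
    linarith
  -- the stationarity equation tested against `X`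
  have hcr : J * S + S * J = (D * cᴴ * D - Dᴴ * c * Dᴴ) + (D * cᴴ * D - Dᴴ * c * Dᴴ) := by
    rw [crit_expand A B D hD hA hB g c S J Z hg hc hS hJ hZ, hcrit]
    noncomm_ring
  set P : Matrix n n ℂ := -(D * X * D) with hP
  have hPs : Pᴴ = Dᴴ * X * Dᴴ := by
    rw [hP, Matrix.conjTranspose_neg, Matrix.conjTranspose_mul, Matrix.conjTranspose_mul, hX]
    noncomm_ring
  have h1 : nsq J = -(J * J).trace.re := by
    rw [nsq, hJs, Matrix.neg_mul, Matrix.trace_neg, Complex.neg_re]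
  have h2 : (J * J).trace = ((J * S + S * J) * X).trace := by
    have e1 : (J * J).trace = (J * (S * X + X * S)).trace := by rw [hL]
    have e2 : J * (S * X + X * S) = J * S * X + (J * X) * S := by noncomm_ring
    have e3 : ((J * X) * S).trace = (S * (J * X)).trace := Matrix.trace_mul_comm _ _
    rw [e1, e2, Matrix.trace_add, e3, ← Matrix.trace_add]
    congr 1
    noncomm_ring
  have h3 : ((D * cᴴ * D) * X).trace.re = -(Pᴴ * c).trace.re := by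
    rw [← re_trace_conjTranspose]
    have e1 : (D * cᴴ * D * X)ᴴ = -(X * (Dᴴ * c * Dᴴ)) := by
      rw [Matrix.conjTranspose_mul, Matrix.conjTranspose_mul, Matrix.conjTranspose_mul, hX,
        Matrix.conjTranspose_conjTranspose]
      noncomm_ring
    have e2 : X * (Dᴴ * c * Dᴴ) = (X * Dᴴ * c) * Dᴴ := by noncomm_ring
    have e3 : Dᴴ * (X * Dᴴ * c) = Pᴴ * c := by rw [hPs]; noncomm_ring
    rw [e1, Matrix.trace_neg, Complex.neg_re, e2, Matrix.trace_mul_comm, e3]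
  have h4 : ((Dᴴ * c * Dᴴ) * X).trace.re = (Pᴴ * c).trace.re := by
    have e2 : Dᴴ * c * Dᴴ * X = (Dᴴ * c) * (Dᴴ * X) := by noncomm_ring
    have e3 : (Dᴴ * X) * (Dᴴ * c) = Pᴴ * c := by rw [hPs]; noncomm_ring
    rw [e2, Matrix.trace_mul_comm, e3]
  have h5 : nsq J = 4 * (Pᴴ * c).trace.re := by
    rw [h1, h2, hcr]
    have e : ((D * cᴴ * D - Dᴴ * c * Dᴴ) + (D * cᴴ * D - Dᴴ * c * Dᴴ)) * X =
      (D * cᴴ * D) * X - (Dᴴ * c * Dᴴ) * X + ((D * cᴴ * D) * X - (Dᴴ * c * Dᴴ) * X) := by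
      noncomm_ring
    rw [e]
    simp only [Matrix.trace_add, Matrix.trace_sub, Complex.add_re, Complex.sub_re, h3, h4]
    ring
  have h6 := four_re_le P c
  have h7 := eight_nsq_le D X hX
  rw [← hS, hL] at h7
  have h8 : nsq P = nsq (D * X * D) := nsq_neg _
  linarith

end Pool.Agent.Lib.MP_d71970_an
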