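import Mathlib

/-!
# The algebraic core of the Hoffman–Wielandt inequality for the Schatten 4-norm

`nsq` is the square of the Frobenius norm.
-/

set_option autoImplicit false

open Matrix

namespace Pool.Agent.Lib.MP_d71970_an

variable {n : Type*} [Fintype n] [DecidableEq n]

/-- The square of the Frobenius norm of a complex square matrix. -/
noncomputable def nsq (X : Matrix n n ℂ) : ℝ := (Xᴴ * X).trace.re

omit [DecidableEq n] in
lemma nsq_eq_sum (X : Matrix n n ℂ) : nsq X = ∑ j, ∑ i, ‖X i j‖ ^ 2 := by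
  simp only [nsq, Matrix.trace, Matrix.diag_apply, Matrix.mul_apply, Matrix.conjTranspose_apply,
    Complex.re_sum]
  refine Finset.sum_congr rfl fun j _ => Finset.sum_congr rfl fun i _ => ?_
  rw [← Complex.normSq_eq_norm_sq, Complex.star_def, ← Complex.normSq_eq_conj_mul_self]
  exact Complex.ofReal_re _

omit [DecidableEq n] in
lemma nsq_nonneg (X : Matrix n n ℂ) : 0 ≤ nsq X := by
  rw [nsq_eq_sum]
  positivity

omit [DecidableEq n] in
lemma re_trace_conjTranspose (X : Matrix n n ℂ) : (Xᴴ).trace.re = X.trace.re := by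
  rw [Matrix.trace_conjTranspose, Complex.star_def, Complex.conj_re]

omit [DecidableEq n] in
lemma nsq_conjTranspose (X : Matrix n n ℂ) : nsq Xᴴ = nsq X := by
  rw [nsq, nsq, Matrix.conjTranspose_conjTranspose, Matrix.trace_mul_comm]

omit [DecidableEq n] in
lemma nsq_neg (X : Matrix n n ℂ) : nsq (-X) = nsq X := by
  simp [nsq]

omit [DecidableEq n] in
lemma nsq_add_add_nsq_sub (X Y : Matrix n n ℂ) :
    nsq (X + Y) + nsq (X - Y) = 2 * nsq X + 2 * nsq Y := by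
  have h : (X + Y)ᴴ * (X + Y) + (X - Y)ᴴ * (X - Y) =
      (2 : ℂ) • (Xᴴ * X) + (2 : ℂ) • (Yᴴ * Y) := by
    rw [Matrix.conjTranspose_add, Matrix.conjTranspose_sub, two_smul, two_smul]
    noncomm_ring
  have h2 := congrArg (fun T : Matrix n n ℂ => T.trace.re) h
  simp only [Matrix.trace_add, Complex.add_re, Matrix.trace_smul, smul_eq_mul,
    Complex.mul_re, Complex.re_ofNat, Complex.im_ofNat, zero_mul, sub_zero] at h2
  simpa only [nsq] using h2

omit [DecidableEq n] in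
lemma re_trace_swap (P c : Matrix n n ℂ) : (cᴴ * P).trace.re = (Pᴴ * c).trace.re := by
  rw [← re_trace_conjTranspose (Pᴴ * c), Matrix.conjTranspose_mul,
    Matrix.conjTranspose_conjTranspose]

omit [DecidableEq n] in
lemma four_re_le (P c : Matrix n n ℂ) : 4 * (Pᴴ * c).trace.re ≤ 4 * nsq P + nsq c := by
  have h : (P + P - c)ᴴ * (P + P - c) =
      Pᴴ * P + Pᴴ * P + Pᴴ * P + Pᴴ * P - Pᴴ * c - Pᴴ * c - cᴴ * P - cᴴ * P + cᴴ * c := by
    rw [Matrix.conjTranspose_sub, Matrix.conjTranspose_add]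
    noncomm_ring
  have h2 := congrArg (fun T : Matrix n n ℂ => T.trace.re) h
  simp only [Matrix.trace_add, Matrix.trace_sub, Complex.add_re, Complex.sub_re,
    re_trace_swap P c] at h2
  have h3 := nsq_nonneg (P + P - c)
  rw [nsq, h2] at h3
  simp only [nsq]
  linarith

/-- For `X` skew-Hermitian, `8 ‖D X D‖² ≤ ‖S X + X S‖²` with `S = Dᴴ D + D Dᴴ`. -/
lemma eight_nsq_le (D X : Matrix n n ℂ) (hX : Xᴴ = -X) :
    8 * nsq (D * X * D) ≤ nsq ((Dᴴ * D + D * Dᴴ) * X + X * (Dᴴ * D + D * Dᴴ)) := by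
  set S : Matrix n n ℂ := Dᴴ * D + D * Dᴴ with hS
  have hSh : Sᴴ = S := by
    simp [hS, Matrix.conjTranspose_add, Matrix.conjTranspose_mul]
  -- the four squares
  have e1 : nsq (D * X * D) = (Xᴴ * (Dᴴ * D) * X * (D * Dᴴ)).trace.re := by
    rw [nsq, Matrix.conjTranspose_mul, Matrix.conjTranspose_mul,
      show Dᴴ * (Xᴴ * Dᴴ) * (D * X * D) = Dᴴ * (Xᴴ * (Dᴴ * D) * X * D) by noncomm_ring,
      Matrix.trace_mul_comm, show Xᴴ * (Dᴴ * D) * X * D * Dᴴ = Xᴴ * (Dᴴ * D) * X * (D * Dᴴ) by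
        noncomm_ring]
  have e2 : nsq (D * X * D) = (Xᴴ * (D * Dᴴ) * X * (Dᴴ * D)).trace.re := by
    have : nsq (D * X * D) = nsq (Dᴴ * X * Dᴴ) := by
      rw [← nsq_conjTranspose (D * X * D), Matrix.conjTranspose_mul, Matrix.conjTranspose_mul, hX,
        show Dᴴ * (-X * Dᴴ) = -(Dᴴ * X * Dᴴ) by noncomm_ring, nsq_neg]
    rw [this, nsq, Matrix.conjTranspose_mul, Matrix.conjTranspose_mul,
      Matrix.conjTranspose_conjTranspose,
      show D * (Xᴴ * D) * (Dᴴ * X * Dᴴ) = D * (Xᴴ * (D * Dᴴ) * X * Dᴴ) by noncomm_ring,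
      Matrix.trace_mul_comm, show Xᴴ * (D * Dᴴ) * X * Dᴴ * D = Xᴴ * (D * Dᴴ) * X * (Dᴴ * D) by
        noncomm_ring]
  have e3 : nsq (Dᴴ * X * D) = (Xᴴ * (D * Dᴴ) * X * (D * Dᴴ)).trace.re := by
    rw [nsq, Matrix.conjTranspose_mul, Matrix.conjTranspose_mul,
      Matrix.conjTranspose_conjTranspose,
      show Dᴴ * (Xᴴ * D) * (Dᴴ * X * D) = Dᴴ * (Xᴴ * (D * Dᴴ) * X * D) by noncomm_ring,
      Matrix.trace_mul_comm, show Xᴴ * (D * Dᴴ) * X * D * Dᴴ = Xᴴ * (D * Dᴴ) * X * (D * Dᴴ) by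
        noncomm_ring]
  have e4 : nsq (D * X * Dᴴ) = (Xᴴ * (Dᴴ * D) * X * (Dᴴ * D)).trace.re := by
    rw [nsq, Matrix.conjTranspose_mul, Matrix.conjTranspose_mul,
      Matrix.conjTranspose_conjTranspose,
      show D * (Xᴴ * Dᴴ) * (D * X * Dᴴ) = D * (Xᴴ * (Dᴴ * D) * X * Dᴴ) by noncomm_ring,
      Matrix.trace_mul_comm, show Xᴴ * (Dᴴ * D) * X * Dᴴ * D = Xᴴ * (Dᴴ * D) * X * (Dᴴ * D) by
        noncomm_ring]
  have e5 : (Xᴴ * S * X * S).trace.re =
      (Xᴴ * (Dᴴ * D) * X * (D * Dᴴ)).trace.re + (Xᴴ * (D * Dᴴ) * X * (Dᴴ * D)).trace.re +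
      (Xᴴ * (D * Dᴴ) * X * (D * Dᴴ)).trace.re + (Xᴴ * (Dᴴ * D) * X * (Dᴴ * D)).trace.re := by
    have : Xᴴ * S * X * S = Xᴴ * (Dᴴ * D) * X * (D * Dᴴ) + Xᴴ * (D * Dᴴ) * X * (Dᴴ * D) +
        Xᴴ * (D * Dᴴ) * X * (D * Dᴴ) + Xᴴ * (Dᴴ * D) * X * (Dᴴ * D) := by
      rw [hS]; noncomm_ring
    rw [this]
    simp only [Matrix.trace_add, Complex.add_re]
  have e6 : 2 * nsq (D * X * D) ≤ (Xᴴ * S * X * S).trace.re := by
    have h3 := nsq_nonneg (Dᴴ * X * D)
    have h4 := nsq_nonneg (D * X * Dᴴ)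
    rw [e3] at h3
    rw [e4] at h4
    linarith
  -- the difference of two squares
  have e7 : nsq (S * X + X * S) - nsq (S * X - X * S) = 4 * (Xᴴ * S * X * S).trace.re := by
    have h : (S * X + X * S)ᴴ * (S * X + X * S) - (S * X - X * S)ᴴ * (S * X - X * S) =
        Xᴴ * S * X * S + Xᴴ * S * X * S + (S * (Xᴴ * S * X) + S * (Xᴴ * S * X)) := by
      rw [Matrix.conjTranspose_sub, Matrix.conjTranspose_add, Matrix.conjTranspose_mul,
        Matrix.conjTranspose_mul, hSh]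
      noncomm_ring
    have h2 := congrArg (fun T : Matrix n n ℂ => T.trace.re) h
    simp only [Matrix.trace_add, Matrix.trace_sub, Complex.add_re, Complex.sub_re,
      Matrix.trace_mul_comm S (Xᴴ * S * X)] at h2
    simp only [nsq]
    linarith
  have h8 := nsq_nonneg (S * X - X * S)
  linarith

end Pool.Agent.Lib.MP_d71970_an
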