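import Pool.Agent.Lib.MP_d71970_an.Lyap

/-!
# The energy `tr |A - B|⁴` of two normal matrices
-/

set_option autoImplicit false

open Matrix

namespace Pool.Agent.Lib.MP_d71970_an

variable {n : Type*} [Fintype n] [DecidableEq n]

omit [DecidableEq n] in
lemma nsq_zero_imp (X : Matrix n n ℂ) (h : nsq X = 0) : X = 0 := by
  rw [nsq_eq_sum, Finset.sum_eq_zero_iff_of_nonneg (fun _ _ => by positivity)] at h
  ext i j
  have h1 := h j (Finset.mem_univ j)
  rw [Finset.sum_eq_zero_iff_of_nonneg (fun _ _ => by positivity)] at h1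
  simpa using h1 i (Finset.mem_univ i)

lemma nsq_mul_unitary (R W : Matrix n n ℂ) (hW : W * Wᴴ = 1) : nsq (R * W) = nsq R := by
  rw [nsq, nsq, Matrix.conjTranspose_mul,
    show Wᴴ * Rᴴ * (R * W) = Wᴴ * (Rᴴ * R * W) by noncomm_ring, Matrix.trace_mul_comm,
    show Rᴴ * R * W * Wᴴ = Rᴴ * R * (W * Wᴴ) by noncomm_ring, hW, Matrix.mul_one]

omit [DecidableEq n] in
lemma nsq_gram_swap (D : Matrix n n ℂ) : nsq (Dᴴ * D) = nsq (D * Dᴴ) := by
  simp only [nsq, Matrix.conjTranspose_mul, Matrix.conjTranspose_conjTranspose]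
  rw [show Dᴴ * D * (Dᴴ * D) = Dᴴ * (D * Dᴴ * D) by noncomm_ring, Matrix.trace_mul_comm,
    show D * Dᴴ * D * Dᴴ = D * Dᴴ * (D * Dᴴ) by noncomm_ring]

omit [DecidableEq n] in
/-- The energy identity. -/
lemma energy_eq (A B D : Matrix n n ℂ) (hD : D = A - B) (hA : Aᴴ * A = A * Aᴴ)
    (hB : Bᴴ * B = B * Bᴴ) (g J R : Matrix n n ℂ) (hg : g = Aᴴ * B - B * Aᴴ) (hJ : J = g - gᴴ)
    (hR : R = Aᴴ * A + Bᴴ * B - Aᴴ * B - A * Bᴴ) :
    4 * nsq (Dᴴ * D) = 4 * nsq R + nsq (Dᴴ * D - D * Dᴴ) - nsq J := by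
  set S : Matrix n n ℂ := Dᴴ * D + D * Dᴴ with hS
  have h1 := nsq_add_add_nsq_sub (Dᴴ * D) (D * Dᴴ)
  rw [← nsq_gram_swap, ← hS] at h1
  have hSh : Sᴴ = S := by
    rw [hS, Matrix.conjTranspose_add, Matrix.conjTranspose_mul, Matrix.conjTranspose_mul,
      Matrix.conjTranspose_conjTranspose]
  have hJs : Jᴴ = -J := by
    rw [hJ, Matrix.conjTranspose_sub, Matrix.conjTranspose_conjTranspose]; noncomm_ring
  have hR2 : S - J = R + R := by
    rw [hS, hJ, hg, hR, hD]
    simp only [Matrix.conjTranspose_sub, Matrix.conjTranspose_mul,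
      Matrix.conjTranspose_conjTranspose]
    have : (Aᴴ - Bᴴ) * (A - B) + (A - B) * (Aᴴ - Bᴴ) -
        (Aᴴ * B - B * Aᴴ - (Bᴴ * A - A * Bᴴ)) =
        (Aᴴ * A + Bᴴ * B - Aᴴ * B - A * Bᴴ) + (A * Aᴴ + B * Bᴴ - Aᴴ * B - A * Bᴴ) := by
      noncomm_ring
    rw [this, ← hA, ← hB]
  have h2 := nsq_add_add_nsq_sub S J
  have h3 : nsq (S + J) = nsq (S - J) := by
    rw [← nsq_conjTranspose (S + J), Matrix.conjTranspose_add, hSh, hJs, ← sub_eq_add_neg]
  have h4 : nsq (R + R) = 4 * nsq R := by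
    have h5 := nsq_add_add_nsq_sub R R
    rw [sub_self] at h5
    have h6 : nsq (0 : Matrix n n ℂ) = 0 := by simp [nsq]
    rw [h6] at h5
    linarith
  rw [h3, hR2, h4] at h2
  linarith

/-- The entries of `R W`, for `A` diagonal and `B = W diag(β) Wᴴ`. -/
lemma nsq_R_eq (α β : n → ℂ) (W : Matrix n n ℂ) (hW : Wᴴ * W = 1) (hW' : W * Wᴴ = 1)
    (A B R : Matrix n n ℂ) (hA : A = diagonal α) (hB : B = W * diagonal β * Wᴴ)
    (hR : R = Aᴴ * A + Bᴴ * B - Aᴴ * B - A * Bᴴ) :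
    nsq R = ∑ j, ∑ i, ‖α i - β j‖ ^ 4 * ‖W i j‖ ^ 2 := by
  rw [← nsq_mul_unitary R W hW', nsq_eq_sum]
  refine Finset.sum_congr rfl fun j _ => Finset.sum_congr rfl fun i _ => ?_
  have h1 : R * W = diagonal (star α) * diagonal α * W + W * (diagonal (star β) * diagonal β) -
      diagonal (star α) * W * diagonal β - diagonal α * W * diagonal (star β) := by
    have hBs : Bᴴ = W * diagonal (star β) * Wᴴ := by
      rw [hB, Matrix.conjTranspose_mul, Matrix.conjTranspose_mul,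
        Matrix.conjTranspose_conjTranspose, Matrix.diagonal_conjTranspose]
      noncomm_ring
    have hAs : Aᴴ = diagonal (star α) := by rw [hA, Matrix.diagonal_conjTranspose]
    rw [hR, hBs, hAs, hA, hB]
    have : (diagonal (star α) * diagonal α +
        W * diagonal (star β) * Wᴴ * (W * diagonal β * Wᴴ) -
        diagonal (star α) * (W * diagonal β * Wᴴ) - diagonal α * (W * diagonal (star β) * Wᴴ)) * W =
        diagonal (star α) * diagonal α * W +
        W * (diagonal (star β) * (Wᴴ * W) * diagonal β) * (Wᴴ * W) -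
        diagonal (star α) * W * diagonal β * (Wᴴ * W) -
        diagonal α * W * diagonal (star β) * (Wᴴ * W) := by noncomm_ring
    rw [this, hW]
    simp only [Matrix.mul_one]
  have h2 : (R * W) i j = ((‖α i - β j‖ ^ 2 : ℝ) : ℂ) * W i j := by
    rw [h1]
    simp only [Matrix.sub_apply, Matrix.add_apply, Matrix.diagonal_mul_diagonal,
      Matrix.diagonal_mul, Matrix.mul_diagonal, Pi.star_apply]
    have h3 : ((‖α i - β j‖ ^ 2 : ℝ) : ℂ) = (star (α i) - star (β j)) * (α i - β j) := by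
      rw [← star_sub, Complex.star_def, ← Complex.normSq_eq_conj_mul_self,
        ← Complex.normSq_eq_norm_sq]
    rw [h3]
    ring
  rw [h2, norm_mul, mul_pow, Complex.norm_real, Real.norm_eq_abs, abs_of_nonneg (by positivity)]
  ring

end Pool.Agent.Lib.MP_d71970_an
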