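import Pool.Agent.Lib.MP_d71970_an.Stationary

/-!
# The Hoffman–Wielandt inequality for the Schatten 4-norm
-/

set_option autoImplicit false

open Matrix

namespace Pool.Agent.Lib.MP_d71970_an

variable {n : Type*} [Fintype n] [DecidableEq n]

lemma isCompact_unitary : IsCompact {W : Matrix n n ℂ | Wᴴ * W = 1} := by
  have h1 : IsCompact (Set.pi Set.univ fun _ : n => Set.pi Set.univ fun _ : n =>
      Metric.closedBall (0 : ℂ) 1) :=
    isCompact_univ_pi fun i => isCompact_univ_pi fun j => isCompact_closedBall 0 1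
  refine IsCompact.of_isClosed_subset (X := Matrix n n ℂ) h1 ?_ ?_
  · exact isClosed_eq (by fun_prop) continuous_const
  · intro W hW
    have hU : W ∈ Matrix.unitaryGroup n ℂ := Matrix.mem_unitaryGroup_iff'.mpr hW
    intro i _ j _
    rw [mem_closedBall_zero_iff]
    exact entry_norm_bound_of_unitary hU i j

lemma exists_perm_le (c : n → n → ℝ) (P : Matrix n n ℝ) (hP : P ∈ doublyStochastic ℝ n) :
    ∃ σ : Equiv.Perm n, ∑ i, c i (σ i) ≤ ∑ i, ∑ j, c i j * P i j := by
  obtain ⟨w, hw0, hw1, hwP⟩ := exists_eq_sum_perm_of_mem_doublyStochastic hP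
  have h1 : ∑ i, ∑ j, c i j * P i j = ∑ σ, w σ * ∑ i, c i (σ i) := by
    have h2 : ∀ i j, P i j = ∑ σ : Equiv.Perm n, w σ * (if σ i = j then 1 else 0) := by
      intro i j
      rw [← hwP, Matrix.sum_apply]
      refine Finset.sum_congr rfl fun σ _ => ?_
      rw [Matrix.smul_apply, smul_eq_mul, Equiv.Perm.permMatrix, PEquiv.toMatrix_apply]
      congr 1
      simp [Equiv.toPEquiv_apply, eq_comm]
    calc ∑ i, ∑ j, c i j * P i j = ∑ i, ∑ j, ∑ σ : Equiv.Perm n,
          w σ * (c i j * (if σ i = j then 1 else 0)) := by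
          refine Finset.sum_congr rfl fun i _ => Finset.sum_congr rfl fun j _ => ?_
          rw [h2, Finset.mul_sum]
          exact Finset.sum_congr rfl fun σ _ => by ring
      _ = ∑ i, ∑ σ : Equiv.Perm n, ∑ j, w σ * (c i j * (if σ i = j then 1 else 0)) :=
          Finset.sum_congr rfl fun i _ => Finset.sum_comm
      _ = ∑ σ : Equiv.Perm n, ∑ i, ∑ j, w σ * (c i j * (if σ i = j then 1 else 0)) :=
          Finset.sum_comm
      _ = ∑ σ, w σ * ∑ i, c i (σ i) := by
          refine Finset.sum_congr rfl fun σ _ => ?_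
          rw [Finset.mul_sum]
          refine Finset.sum_congr rfl fun i _ => ?_
          simp
  by_contra hcon
  push Not at hcon
  rw [h1] at hcon
  have h3 : ∑ σ, w σ * ∑ i, c i (σ i) < ∑ σ, w σ * (∑ i, c i (σ i)) := by
    set m := ∑ σ, w σ * ∑ i, c i (σ i) with hm
    have h4 : ∃ σ ∈ Finset.univ, 0 < w σ := by
      by_contra hne
      push Not at hne
      have h5 : ∑ σ, w σ ≤ 0 := Finset.sum_nonpos fun σ h => hne σ h
      linarith
    calc m = ∑ σ, w σ * m := by rw [← Finset.sum_mul, hw1, one_mul]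
      _ < ∑ σ, w σ * (∑ i, c i (σ i)) := by
          refine Finset.sum_lt_sum (fun σ _ => ?_) ?_
          · exact mul_le_mul_of_nonneg_left (hcon σ).le (hw0 σ)
          · obtain ⟨σ, hσ, hpos⟩ := h4
            exact ⟨σ, hσ, mul_lt_mul_of_pos_left (hcon σ) hpos⟩
  exact lt_irrefl _ h3

lemma doublyStochastic_of_unitary (W : Matrix n n ℂ) (h1 : Wᴴ * W = 1) (h2 : W * Wᴴ = 1) :
    (Matrix.of fun i j => ‖W i j‖ ^ 2) ∈ doublyStochastic ℝ n := by
  rw [mem_doublyStochastic_iff_sum]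
  have h3 : ∀ z : ℂ, (z * star z).re = ‖z‖ ^ 2 := by
    intro z
    rw [← Complex.normSq_eq_norm_sq, Complex.star_def, mul_comm,
      ← Complex.normSq_eq_conj_mul_self]
    exact Complex.ofReal_re _
  have h4 : ∀ z : ℂ, (star z * z).re = ‖z‖ ^ 2 := by
    intro z; rw [mul_comm]; exact h3 z
  refine ⟨fun i j => by simp only [Matrix.of_apply]; positivity, fun i => ?_, fun j => ?_⟩
  · have := congrArg (fun T : Matrix n n ℂ => (T i i).re) h2
    simpa only [Matrix.mul_apply, Matrix.conjTranspose_apply, Complex.re_sum, h3,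
      Matrix.one_apply_eq, Complex.one_re, Matrix.of_apply] using this
  · have := congrArg (fun T : Matrix n n ℂ => (T j j).re) h1
    simpa only [Matrix.mul_apply, Matrix.conjTranspose_apply, Complex.re_sum, h4,
      Matrix.one_apply_eq, Complex.one_re, Matrix.of_apply] using this

/-- The main inequality, in a basis of eigenvectors of the first matrix. -/
theorem hw4_diag (α β : n → ℂ) (W : Matrix n n ℂ) (hW : Wᴴ * W = 1) :
    ∃ σ : Equiv.Perm n, ∑ i, ‖α i - β (σ i)‖ ^ 4 ≤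
      nsq ((diagonal α - W * diagonal β * Wᴴ)ᴴ * (diagonal α - W * diagonal β * Wᴴ)) := by
  set A : Matrix n n ℂ := diagonal α with hA
  set E : Matrix n n ℂ → ℝ := fun V =>
    nsq ((A - V * diagonal β * Vᴴ)ᴴ * (A - V * diagonal β * Vᴴ)) with hE
  have hcont : Continuous E := by
    simp only [hE, nsq]
    fun_prop
  obtain ⟨V, hV, hmin⟩ := (isCompact_unitary (n := n)).exists_isMinOn
    ⟨1, by simp⟩ hcont.continuousOn
  have hV1 : Vᴴ * V = 1 := hV
  have hV2 : V * Vᴴ = 1 := mul_eq_one_comm.mp hV1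
  have hmin' : ∀ V' : Matrix n n ℂ, V'ᴴ * V' = 1 → E V ≤ E V' := fun V' h => hmin h
  set B : Matrix n n ℂ := V * diagonal β * Vᴴ with hB
  have hAn : Aᴴ * A = A * Aᴴ := by
    rw [hA, Matrix.diagonal_conjTranspose, Matrix.diagonal_mul_diagonal,
      Matrix.diagonal_mul_diagonal]
    congr 1
    ext i
    exact mul_comm _ _
  have hBn : Bᴴ * B = B * Bᴴ := by
    have hBs : Bᴴ = V * diagonal (star β) * Vᴴ := by
      rw [hB, Matrix.conjTranspose_mul, Matrix.conjTranspose_mul,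
        Matrix.conjTranspose_conjTranspose, Matrix.diagonal_conjTranspose]
      noncomm_ring
    have e1 : Bᴴ * B = V * (diagonal (star β) * (Vᴴ * V) * diagonal β) * Vᴴ := by
      rw [hBs, hB]; noncomm_ring
    have e2 : B * Bᴴ = V * (diagonal β * (Vᴴ * V) * diagonal (star β)) * Vᴴ := by
      rw [hBs, hB]; noncomm_ring
    rw [e1, e2, hV1, Matrix.mul_one, Matrix.mul_one, Matrix.diagonal_mul_diagonal,
      Matrix.diagonal_mul_diagonal]
    congr 3
    ext i
    exact mul_comm _ _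
  have hcrit := crit_of_min A B _ rfl (by
    intro U hU1 hU2
    have h1 := hmin' (U * V) (by
      rw [Matrix.conjTranspose_mul, show Vᴴ * Uᴴ * (U * V) = Vᴴ * (Uᴴ * U) * V by noncomm_ring,
        hU1, Matrix.mul_one, hV1])
    have h2 : U * V * diagonal β * (U * V)ᴴ = U * B * Uᴴ := by
      rw [hB, Matrix.conjTranspose_mul]; noncomm_ring
    simp only [hE, h2] at h1
    exact h1)
  obtain ⟨X, hX, hL⟩ := exists_lyap A B (A - B) rfl hBn _ _ rfl rfl
  have hskew := skew_le A B (A - B) rfl hAn hBn _ _ _ X rfl rfl rfl hcrit hX hL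
  have hen := energy_eq A B (A - B) rfl hAn hBn _ _ _ rfl rfl rfl
  have hR := nsq_R_eq α β V hV1 hV2 A B _ hA hB rfl
  have hle : nsq (Aᴴ * A + Bᴴ * B - Aᴴ * B - A * Bᴴ) ≤ nsq ((A - B)ᴴ * (A - B)) := by
    linarith
  rw [hR] at hle
  obtain ⟨σ, hσ⟩ := exists_perm_le (fun i j => ‖α i - β j‖ ^ 4) _
    (doublyStochastic_of_unitary V hV1 hV2)
  refine ⟨σ, ?_⟩
  have h5 := hmin' W hW
  simp only [hE, ← hB] at h5
  rw [Finset.sum_comm] at hle
  simp only [Matrix.of_apply] at hσ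
  linarith

/-- The main inequality for two normal matrices `U diag(α) U*` and `V diag(β) V*`. -/
theorem hw4 (α β : n → ℂ) (U V : Matrix n n ℂ) (hU : U ∈ Matrix.unitaryGroup n ℂ)
    (hV : V ∈ Matrix.unitaryGroup n ℂ) :
    ∃ σ : Equiv.Perm n, ∑ i, ‖α i - β (σ i)‖ ^ 4 ≤
      nsq ((U * diagonal α * star U - V * diagonal β * star V)ᴴ *
        (U * diagonal α * star U - V * diagonal β * star V)) := by
  have hU1 : Uᴴ * U = 1 := Matrix.mem_unitaryGroup_iff'.mp hU
  have hU2 : U * Uᴴ = 1 := Matrix.mem_unitaryGroup_iff.mp hU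
  have hV1 : Vᴴ * V = 1 := Matrix.mem_unitaryGroup_iff'.mp hV
  obtain ⟨σ, hσ⟩ := hw4_diag α β (Uᴴ * V) (by
    rw [Matrix.conjTranspose_mul, Matrix.conjTranspose_conjTranspose,
      show Vᴴ * U * (Uᴴ * V) = Vᴴ * (U * Uᴴ) * V by noncomm_ring, hU2, Matrix.mul_one, hV1])
  refine ⟨σ, hσ.trans (le_of_eq ?_)⟩
  set D : Matrix n n ℂ := U * diagonal α * star U - V * diagonal β * star V with hD
  have hD1 : diagonal α - Uᴴ * V * diagonal β * (Uᴴ * V)ᴴ = Uᴴ * D * U := by
    rw [hD, Matrix.star_eq_conjTranspose, Matrix.star_eq_conjTranspose, Matrix.conjTranspose_mul,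
      Matrix.conjTranspose_conjTranspose]
    have : Uᴴ * (U * diagonal α * Uᴴ - V * diagonal β * Vᴴ) * U =
        (Uᴴ * U) * diagonal α * (Uᴴ * U) - Uᴴ * V * diagonal β * (Vᴴ * U) := by noncomm_ring
    rw [this, hU1, Matrix.one_mul, Matrix.mul_one]
  rw [hD1]
  have h1 : (Uᴴ * D * U)ᴴ * (Uᴴ * D * U) = Uᴴ * (Dᴴ * D) * U := by
    rw [Matrix.conjTranspose_mul, Matrix.conjTranspose_mul, Matrix.conjTranspose_conjTranspose]
    have : Uᴴ * (Dᴴ * U) * (Uᴴ * D * U) = Uᴴ * Dᴴ * (U * Uᴴ) * D * U := by noncomm_ring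
    rw [this, hU2, Matrix.mul_one]
    noncomm_ring
  rw [h1, nsq_mul_unitary _ U hU2, ← nsq_conjTranspose, Matrix.conjTranspose_mul,
    Matrix.conjTranspose_conjTranspose, nsq_mul_unitary _ U hU2, nsq_conjTranspose]

lemma sum_eigenvalues_sq (H : Matrix n n ℂ) (hH : H.IsHermitian) :
    ∑ i, hH.eigenvalues i ^ 2 = nsq H := by
  obtain ⟨Q, s, hs, hQ1, hQ2, hspec⟩ : ∃ (Q : Matrix n n ℂ) (s : n → ℝ), s = hH.eigenvalues ∧
      Qᴴ * Q = 1 ∧ Q * Qᴴ = 1 ∧ H = Q * diagonal (fun i => (s i : ℂ)) * Qᴴ := by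
    refine ⟨(hH.eigenvectorUnitary : Matrix n n ℂ), hH.eigenvalues, rfl, ?_, ?_, ?_⟩
    · exact Unitary.coe_star_mul_self hH.eigenvectorUnitary
    · exact Unitary.coe_mul_star_self hH.eigenvectorUnitary
    · conv_lhs => rw [hH.spectral_theorem, Unitary.conjStarAlgAut_apply]
      rfl
  have h1 : nsq H = nsq (diagonal (fun i => (s i : ℂ)) : Matrix n n ℂ) := by
    rw [hspec, nsq_mul_unitary _ Qᴴ (by rw [Matrix.conjTranspose_conjTranspose, hQ1]),
      ← nsq_conjTranspose, Matrix.conjTranspose_mul,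
      nsq_mul_unitary _ Qᴴ (by rw [Matrix.conjTranspose_conjTranspose, hQ1]), nsq_conjTranspose]
  rw [h1, nsq_eq_sum, ← hs]
  refine Finset.sum_congr rfl fun j _ => ?_
  rw [Finset.sum_eq_single j]
  · rw [Matrix.diagonal_apply_eq, Complex.norm_real, Real.norm_eq_abs, sq_abs]
  · intro i _ hij
    rw [Matrix.diagonal_apply_ne _ hij]
    simp
  · simp

open scoped ComplexOrder in
lemma gram_eigenvalues_nonneg (D : Matrix n n ℂ) (i : n) :
    0 ≤ (Matrix.isHermitian_conjTranspose_mul_self D).eigenvalues i :=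
  (Matrix.posSemidef_conjTranspose_mul_self D).eigenvalues_nonneg i

end Pool.Agent.Lib.MP_d71970_an
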