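import Pool.Agent.Lib.MP_d71970_an.Comm

/-!
# Solvability of the Lyapunov equation `S X + X S = J`
-/

set_option autoImplicit false

open Matrix

namespace Pool.Agent.Lib.MP_d71970_an

variable {n : Type*} [Fintype n] [DecidableEq n]

theorem exists_lyap (A B D : Matrix n n ℂ) (hD : D = A - B) (hB : Bᴴ * B = B * Bᴴ)
    (g J : Matrix n n ℂ) (hg : g = Aᴴ * B - B * Aᴴ) (hJ : J = g - gᴴ) :
    ∃ X : Matrix n n ℂ, Xᴴ = -X ∧ (Dᴴ * D + D * Dᴴ) * X + X * (Dᴴ * D + D * Dᴴ) = J := by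
  set S : Matrix n n ℂ := Dᴴ * D + D * Dᴴ with hS
  have hSh : S.IsHermitian := by
    rw [Matrix.IsHermitian, hS, Matrix.conjTranspose_add, Matrix.conjTranspose_mul,
      Matrix.conjTranspose_mul, Matrix.conjTranspose_conjTranspose]
  obtain ⟨Q, s, hQ1, hQ2, hspec⟩ : ∃ (Q : Matrix n n ℂ) (s : n → ℝ), Qᴴ * Q = 1 ∧ Q * Qᴴ = 1 ∧
      S = Q * diagonal (fun i => (s i : ℂ)) * Qᴴ := by
    refine ⟨(hSh.eigenvectorUnitary : Matrix n n ℂ), hSh.eigenvalues, ?_, ?_, ?_⟩
    · exact Unitary.coe_star_mul_self hSh.eigenvectorUnitary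
    · exact Unitary.coe_mul_star_self hSh.eigenvectorUnitary
    · conv_lhs => rw [hSh.spectral_theorem, Unitary.conjStarAlgAut_apply]
      rfl
  have hdiag : Qᴴ * S * Q = diagonal (fun i => (s i : ℂ)) := by
    rw [hspec]
    have : Qᴴ * (Q * diagonal (fun i => (s i : ℂ)) * Qᴴ) * Q =
        (Qᴴ * Q) * diagonal (fun i => (s i : ℂ)) * (Qᴴ * Q) := by noncomm_ring
    rw [this, hQ1, Matrix.one_mul, Matrix.mul_one]
  have hs : ∀ i, s i = ∑ k, ‖(D * Q) k i‖ ^ 2 + ∑ k, ‖(Dᴴ * Q) k i‖ ^ 2 := by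
    intro i
    have h1 : Qᴴ * S * Q = (D * Q)ᴴ * (D * Q) + (Dᴴ * Q)ᴴ * (Dᴴ * Q) := by
      rw [hS, Matrix.conjTranspose_mul, Matrix.conjTranspose_mul,
        Matrix.conjTranspose_conjTranspose]
      noncomm_ring
    rw [hdiag] at h1
    have h2 := congrArg (fun T : Matrix n n ℂ => (T i i).re) h1
    simp only [Matrix.diagonal_apply_eq, Complex.ofReal_re, Matrix.add_apply, Matrix.mul_apply,
      Matrix.conjTranspose_apply, Complex.add_re, Complex.re_sum] at h2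
    rw [h2]
    have h3 : ∀ z : ℂ, (star z * z).re = ‖z‖ ^ 2 := by
      intro z
      rw [← Complex.normSq_eq_norm_sq, Complex.star_def, ← Complex.normSq_eq_conj_mul_self]
      exact Complex.ofReal_re _
    simp only [h3, Matrix.mul_apply, Matrix.conjTranspose_apply]
  have hs0 : ∀ i, 0 ≤ s i := fun i => by rw [hs i]; positivity
  have hz1 : ∀ i, s i = 0 → ∀ k, (D * Q) k i = 0 := by
    intro i hi k
    have h1 : ∑ k, ‖(D * Q) k i‖ ^ 2 = 0 := by
      have a1 : 0 ≤ ∑ k, ‖(D * Q) k i‖ ^ 2 := by positivity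
      have a2 : 0 ≤ ∑ k, ‖(Dᴴ * Q) k i‖ ^ 2 := by positivity
      have := hs i
      linarith
    rw [Finset.sum_eq_zero_iff_of_nonneg (fun _ _ => by positivity)] at h1
    have := h1 k (Finset.mem_univ k)
    simpa using this
  have hz2 : ∀ i, s i = 0 → ∀ k, (Dᴴ * Q) k i = 0 := by
    intro i hi k
    have h1 : ∑ k, ‖(Dᴴ * Q) k i‖ ^ 2 = 0 := by
      have a1 : 0 ≤ ∑ k, ‖(D * Q) k i‖ ^ 2 := by positivity
      have a2 : 0 ≤ ∑ k, ‖(Dᴴ * Q) k i‖ ^ 2 := by positivity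
      have := hs i
      linarith
    rw [Finset.sum_eq_zero_iff_of_nonneg (fun _ _ => by positivity)] at h1
    have := h1 k (Finset.mem_univ k)
    simpa using this
  have hg' : g = Dᴴ * B - B * Dᴴ := by
    rw [hg, hD, Matrix.conjTranspose_sub]
    have : (Aᴴ - Bᴴ) * B - B * (Aᴴ - Bᴴ) = Aᴴ * B - B * Aᴴ - (Bᴴ * B - B * Bᴴ) := by noncomm_ring
    rw [this, hB]
    noncomm_ring
  have hgz : ∀ i j, s i = 0 → s j = 0 → (Qᴴ * g * Q) i j = 0 := by
    intro i j hi hj
    have h1 : Qᴴ * g * Q = (D * Q)ᴴ * (B * Q) - (Qᴴ * B) * (Dᴴ * Q) := by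
      rw [hg', Matrix.conjTranspose_mul]
      noncomm_ring
    rw [h1, Matrix.sub_apply, Matrix.mul_apply, Matrix.mul_apply]
    simp only [Matrix.conjTranspose_apply, hz1 i hi, hz2 j hj, star_zero, zero_mul, mul_zero,
      Finset.sum_const_zero, sub_zero]
  set J' : Matrix n n ℂ := Qᴴ * J * Q with hJ'
  have hJz : ∀ i j, s i + s j = 0 → J' i j = 0 := by
    intro i j hij
    have hi : s i = 0 := by linarith [hs0 i, hs0 j]
    have hj : s j = 0 := by linarith [hs0 i, hs0 j]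
    have h1 : J' = Qᴴ * g * Q - (Qᴴ * g * Q)ᴴ := by
      rw [hJ', hJ, Matrix.conjTranspose_mul, Matrix.conjTranspose_mul,
        Matrix.conjTranspose_conjTranspose]
      noncomm_ring
    rw [h1, Matrix.sub_apply, Matrix.conjTranspose_apply, hgz i j hi hj, hgz j i hj hi]
    simp
  have hJs : J'ᴴ = -J' := by
    rw [hJ', hJ]
    simp only [Matrix.conjTranspose_mul, Matrix.conjTranspose_sub,
      Matrix.conjTranspose_conjTranspose]
    noncomm_ring
  set X' : Matrix n n ℂ := Matrix.of fun i j => J' i j / ((s i + s j : ℝ) : ℂ) with hX'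
  have hXs : X'ᴴ = -X' := by
    ext i j
    have h1 : star (J' j i) = -J' i j := by
      have := congrFun (congrFun hJs i) j
      simpa only [Matrix.conjTranspose_apply, Matrix.neg_apply] using this
    simp only [Matrix.conjTranspose_apply, hX', Matrix.of_apply, Matrix.neg_apply]
    rw [star_div₀, h1, Complex.star_def, Complex.conj_ofReal, add_comm (s j) (s i), neg_div]
  have hXL : diagonal (fun i => (s i : ℂ)) * X' + X' * diagonal (fun i => (s i : ℂ)) = J' := by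
    ext i j
    rw [Matrix.add_apply, Matrix.diagonal_mul, Matrix.mul_diagonal, hX', Matrix.of_apply]
    by_cases h : s i + s j = 0
    · rw [hJz i j h]; simp
    · have h2 : ((s i + s j : ℝ) : ℂ) ≠ 0 := by exact_mod_cast h
      field_simp
      push_cast
      ring
  refine ⟨Q * X' * Qᴴ, ?_, ?_⟩
  · rw [Matrix.conjTranspose_mul, Matrix.conjTranspose_mul, Matrix.conjTranspose_conjTranspose, hXs]
    noncomm_ring
  · rw [hspec]
    have h1 : Q * diagonal (fun i => (s i : ℂ)) * Qᴴ * (Q * X' * Qᴴ) +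
        Q * X' * Qᴴ * (Q * diagonal (fun i => (s i : ℂ)) * Qᴴ) =
        Q * (diagonal (fun i => (s i : ℂ)) * (Qᴴ * Q) * X' +
          X' * (Qᴴ * Q) * diagonal (fun i => (s i : ℂ))) * Qᴴ := by noncomm_ring
    rw [h1, hQ1, Matrix.mul_one, Matrix.mul_one, hXL, hJ']
    have h2 : Q * (Qᴴ * J * Q) * Qᴴ = (Q * Qᴴ) * J * (Q * Qᴴ) := by noncomm_ring
    rw [h2, hQ2, Matrix.one_mul, Matrix.mul_one]

end Pool.Agent.Lib.MP_d71970_an
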