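import Mathlib

/-! Unitary diagonalisation of normal matrices. -/

set_option autoImplicit false

open Matrix

namespace Pool.Agent.Lib.MP_d71970_an

section Family

variable {E : Type*} [NormedAddCommGroup E] [InnerProductSpace ℂ E] [FiniteDimensional ℂ E]

open scoped InnerProductSpace

/-- An eigenvector of a normal map is an eigenvector of the adjoint. -/
theorem adjoint_eig (T : E →ₗ[ℂ] E)
    (hT : LinearMap.adjoint T ∘ₗ T = T ∘ₗ LinearMap.adjoint T) (x : E) (c : ℂ)
    (hx : T x = c • x) : LinearMap.adjoint T x = (starRingEnd ℂ) c • x := by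
  have h1 : ⟪LinearMap.adjoint T x - (starRingEnd ℂ) c • x,
      LinearMap.adjoint T x - (starRingEnd ℂ) c • x⟫_ℂ = 0 := by
    have h2 : T (LinearMap.adjoint T x) = c • LinearMap.adjoint T x := by
      have := congrArg (fun L : E →ₗ[ℂ] E => L x) hT
      simp only [LinearMap.comp_apply] at this
      rw [← this, hx, map_smul]
    have h3 : T (LinearMap.adjoint T x - (starRingEnd ℂ) c • x) =
        c • (LinearMap.adjoint T x - (starRingEnd ℂ) c • x) := by
      rw [map_sub, map_smul, h2, hx, smul_sub, smul_comm]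
    set y := LinearMap.adjoint T x - (starRingEnd ℂ) c • x with hy
    rw [show ⟪y, y⟫_ℂ = ⟪y, LinearMap.adjoint T x - (starRingEnd ℂ) c • x⟫_ℂ from by rw [← hy]]
    rw [inner_sub_right, LinearMap.adjoint_inner_right, inner_smul_right, h3, inner_smul_left]
    ring
  exact sub_eq_zero.1 (inner_self_eq_zero.1 h1)

theorem exists_family (T : E →ₗ[ℂ] E)
    (hT : LinearMap.adjoint T ∘ₗ T = T ∘ₗ LinearMap.adjoint T) :
    ∀ k ≤ Module.finrank ℂ E, ∃ v : Fin k → E, Orthonormal ℂ v ∧
      ∃ α : Fin k → ℂ, ∀ i, T (v i) = α i • v i := by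
  intro k
  induction k with
  | zero =>
    intro _
    exact ⟨Fin.elim0, by simp, Fin.elim0, fun i => i.elim0⟩
  | succ k ih =>
    intro hk
    obtain ⟨v, hv, α, hα⟩ := ih (by omega)
    set W : Submodule ℂ E := (Submodule.span ℂ (Set.range v))ᗮ with hW
    have hadj : ∀ i, LinearMap.adjoint T (v i) = (starRingEnd ℂ) (α i) • v i :=
      fun i => adjoint_eig T hT (v i) (α i) (hα i)
    have hmem : ∀ x : E, x ∈ W ↔ ∀ i, ⟪v i, x⟫_ℂ = 0 := by
      intro x
      rw [hW, Submodule.mem_orthogonal]
      constructor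
      · intro h i
        exact h _ (Submodule.subset_span ⟨i, rfl⟩)
      · intro h u hu
        refine Submodule.span_induction (p := fun u _ => ⟪u, x⟫_ℂ = 0) ?_ ?_ ?_ ?_ hu
        · rintro _ ⟨i, rfl⟩; exact h i
        · simp
        · intro a b _ _ ha hb; rw [inner_add_left, ha, hb, add_zero]
        · intro a b _ hb; rw [inner_smul_left, hb, mul_zero]
    have hinv : ∀ x ∈ W, T x ∈ W := by
      intro x hx
      rw [hmem] at hx ⊢
      intro i
      rw [← LinearMap.adjoint_inner_left, hadj, inner_smul_left, hx i, mul_zero]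
    have hfin : Module.finrank ℂ (Submodule.span ℂ (Set.range v)) = k := by
      rw [finrank_span_eq_card hv.linearIndependent, Fintype.card_fin]
    have hWpos : 0 < Module.finrank ℂ W := by
      have := Submodule.finrank_add_finrank_orthogonal (Submodule.span ℂ (Set.range v))
      rw [hfin] at this
      rw [hW]; omega
    have : Nontrivial W := Module.finrank_pos_iff.1 hWpos
    obtain ⟨μ, hμ⟩ := Module.End.exists_eigenvalue (T.restrict hinv)
    obtain ⟨w, hw⟩ := hμ.exists_hasEigenvector
    have hw0 : (w : E) ≠ 0 := fun h => hw.2 (Subtype.ext h)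
    have hwT : T (w : E) = μ • (w : E) := by
      have := hw.apply_eq_smul
      exact congrArg Subtype.val this
    have hwW := (hmem (w : E)).1 w.2
    set w' : E := ((‖(w : E)‖ : ℂ)⁻¹) • (w : E) with hw'
    have hnw : ‖w'‖ = 1 := by
      rw [hw', norm_smul, norm_inv, Complex.norm_real, norm_norm,
        inv_mul_cancel₀ (norm_ne_zero_iff.2 hw0)]
    refine ⟨Fin.cons w' v, ?_, Fin.cons μ α, ?_⟩
    · rw [orthonormal_iff_ite]
      intro i j
      refine Fin.cases ?_ (fun i => ?_) i
      · refine Fin.cases ?_ (fun j => ?_) j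
        · simp [inner_self_eq_norm_sq_to_K, hnw]
        · rw [if_neg (Fin.succ_ne_zero j).symm]
          simp only [Fin.cons_zero, Fin.cons_succ]
          rw [← inner_conj_symm, hw', inner_smul_right, hwW j]
          simp
      · refine Fin.cases ?_ (fun j => ?_) j
        · rw [if_neg (Fin.succ_ne_zero i)]
          simp only [Fin.cons_zero, Fin.cons_succ]
          rw [hw', inner_smul_right, hwW i, mul_zero]
        · simp only [Fin.cons_succ, Fin.succ_inj]
          exact (orthonormal_iff_ite.1 hv) i j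
    · intro i
      refine Fin.cases ?_ (fun i => ?_) i
      · simp only [Fin.cons_zero]
        rw [hw', map_smul, hwT, smul_comm]
      · simp only [Fin.cons_succ]
        exact hα i

end Family

/-- A normal matrix is unitarily diagonalisable. -/
theorem normal_diag (n : ℕ) (A : Matrix (Fin n) (Fin n) ℂ) (hA : Aᴴ * A = A * Aᴴ) :
    ∃ U ∈ Matrix.unitaryGroup (Fin n) ℂ, ∃ α : Fin n → ℂ,
      A = U * Matrix.diagonal α * star U := by
  obtain ⟨v, hv, α, hα⟩ := exists_family (Matrix.toEuclideanLin A) (by
    rw [← Matrix.toEuclideanLin_conjTranspose_eq_adjoint]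
    apply LinearMap.ext
    intro x
    simp only [LinearMap.comp_apply, Matrix.toEuclideanLin_apply, Matrix.mulVec_mulVec, hA]) n
    (by simp)
  set U : Matrix (Fin n) (Fin n) ℂ := Matrix.of fun i j => (v j).ofLp i with hUdef
  have hU1 : star U * U = 1 := by
    ext i j
    rw [Matrix.mul_apply, Matrix.one_apply]
    have := (orthonormal_iff_ite.1 hv) i j
    rw [← this]
    simp [PiLp.inner_apply, hUdef, Matrix.star_apply, mul_comm]
  have hU : U ∈ Matrix.unitaryGroup (Fin n) ℂ := (Matrix.mem_unitaryGroup_iff').2 hU1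
  refine ⟨U, hU, α, ?_⟩
  have h1 : A * U = U * Matrix.diagonal α := by
    ext i j
    rw [Matrix.mul_diagonal]
    have := congrArg (fun x : EuclideanSpace ℂ (Fin n) => x.ofLp i) (hα j)
    simp only [Matrix.toEuclideanLin_apply, PiLp.smul_apply, smul_eq_mul] at this
    rw [hUdef]
    simp only [Matrix.of_apply]
    rw [mul_comm, ← this]
    rfl
  rw [← h1, Matrix.mul_assoc, (Matrix.mem_unitaryGroup_iff).1 hU, Matrix.mul_one]

end Pool.Agent.Lib.MP_d71970_an
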