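import Pool.Agent.Lib.MP_d71970_an.Energy

/-!
# The stationarity equation at a minimiser over the unitary orbit
-/

set_option autoImplicit false

open Matrix
open scoped Matrix.Norms.Operator

namespace Pool.Agent.Lib.MP_d71970_an

variable {n : Type*} [Fintype n] [DecidableEq n]

/-- The real part of the trace as a real linear functional. -/
noncomputable def reTr : Matrix n n ℂ →L[ℝ] ℝ :=
  LinearMap.toContinuousLinearMap
    (Complex.reLm.comp (Matrix.traceLinearMap n ℝ ℂ))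

lemma reTr_apply (X : Matrix n n ℂ) : reTr X = X.trace.re := rfl

lemma hasDerivAt_conj (Y B : Matrix n n ℂ) :
    HasDerivAt (fun t : ℝ => NormedSpace.exp (t • Y) * B * NormedSpace.exp (t • (-Y)))
      (Y * B - B * Y) 0 := by
  have h1 : HasDerivAt (fun t : ℝ => NormedSpace.exp (t • Y)) Y 0 := by
    have := hasDerivAt_exp_smul_const (𝕂 := ℝ) Y 0
    rw [zero_smul, NormedSpace.exp_zero, one_mul] at this
    exact this
  have h2 : HasDerivAt (fun t : ℝ => NormedSpace.exp (t • (-Y))) (-Y) 0 := by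
    have := hasDerivAt_exp_smul_const (𝕂 := ℝ) (-Y) 0
    rw [zero_smul, NormedSpace.exp_zero, one_mul] at this
    exact this
  have h3 := (h1.mul_const B).mul h2
  have h4 : Y * B * NormedSpace.exp ((0 : ℝ) • (-Y)) + NormedSpace.exp ((0 : ℝ) • Y) * B * (-Y) =
      Y * B - B * Y := by
    rw [zero_smul, zero_smul, NormedSpace.exp_zero]
    noncomm_ring
  rw [h4] at h3
  exact h3

lemma hasDerivAt_energy (A A' B B' Y : Matrix n n ℂ) :
    HasDerivAt (fun t : ℝ =>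
      reTr ((A' - NormedSpace.exp (t • Y) * B' * NormedSpace.exp (t • (-Y))) *
        (A - NormedSpace.exp (t • Y) * B * NormedSpace.exp (t • (-Y))) *
        ((A' - NormedSpace.exp (t • Y) * B' * NormedSpace.exp (t • (-Y))) *
        (A - NormedSpace.exp (t • Y) * B * NormedSpace.exp (t • (-Y))))))
      (reTr (((-(Y * B' - B' * Y)) * (A - B) + (A' - B') * (-(Y * B - B * Y))) *
          ((A' - B') * (A - B)) +
        ((A' - B') * (A - B)) *
          ((-(Y * B' - B' * Y)) * (A - B) + (A' - B') * (-(Y * B - B * Y))))) 0 := by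
  have hP : HasDerivAt
      (fun t : ℝ => A' - NormedSpace.exp (t • Y) * B' * NormedSpace.exp (t • (-Y)))
      (-(Y * B' - B' * Y)) 0 := (hasDerivAt_conj Y B').const_sub A'
  have hQ : HasDerivAt
      (fun t : ℝ => A - NormedSpace.exp (t • Y) * B * NormedSpace.exp (t • (-Y)))
      (-(Y * B - B * Y)) 0 := (hasDerivAt_conj Y B).const_sub A
  have hPQ := hP.mul hQ
  have h4 := hPQ.mul hPQ
  have h5 := (reTr (n := n)).hasFDerivAt.comp_hasDerivAt (0 : ℝ) h4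
  have e0 : NormedSpace.exp ((0 : ℝ) • Y) = 1 := by rw [zero_smul, NormedSpace.exp_zero]
  have e1 : NormedSpace.exp ((0 : ℝ) • (-Y)) = 1 := by rw [zero_smul, NormedSpace.exp_zero]
  simp only [Pi.mul_apply, e0, e1, one_mul, mul_one] at h5
  exact h5

/-- At a minimiser of the energy over the unitary orbit of `B`, the stationarity equation. -/
theorem crit_of_min (A B Z : Matrix n n ℂ)
    (hZ : Z = (A - B) * (A - B)ᴴ * (A - B))
    (hmin : ∀ U : Matrix n n ℂ, Uᴴ * U = 1 → U * Uᴴ = 1 →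
      nsq ((A - B)ᴴ * (A - B)) ≤ nsq ((A - U * B * Uᴴ)ᴴ * (A - U * B * Uᴴ))) :
    Bᴴ * Z - Z * Bᴴ + B * Zᴴ - Zᴴ * B = 0 := by
  set Y : Matrix n n ℂ := Bᴴ * Z - Z * Bᴴ + B * Zᴴ - Zᴴ * B with hY
  have hYs : Yᴴ = -Y := by
    rw [hY]
    simp only [Matrix.conjTranspose_sub, Matrix.conjTranspose_add, Matrix.conjTranspose_mul,
      Matrix.conjTranspose_conjTranspose]
    noncomm_ring
  have hexp : ∀ t : ℝ, (NormedSpace.exp (t • Y))ᴴ = NormedSpace.exp (t • (-Y)) := by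
    intro t
    rw [← Matrix.exp_conjTranspose, Matrix.conjTranspose_smul, hYs]
    simp
  have hinv1 : ∀ t : ℝ, NormedSpace.exp (t • (-Y)) * NormedSpace.exp (t • Y) = 1 := by
    intro t
    rw [smul_neg, Matrix.exp_neg]
    exact Matrix.nonsing_inv_mul _ ((Matrix.isUnit_iff_isUnit_det _).mp (Matrix.isUnit_exp _))
  have hinv2 : ∀ t : ℝ, NormedSpace.exp (t • Y) * NormedSpace.exp (t • (-Y)) = 1 := by
    intro t
    rw [smul_neg, Matrix.exp_neg]
    exact Matrix.mul_nonsing_inv _ ((Matrix.isUnit_iff_isUnit_det _).mp (Matrix.isUnit_exp _))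
  set φ : ℝ → ℝ := fun t =>
      reTr ((Aᴴ - NormedSpace.exp (t • Y) * Bᴴ * NormedSpace.exp (t • (-Y))) *
        (A - NormedSpace.exp (t • Y) * B * NormedSpace.exp (t • (-Y))) *
        ((Aᴴ - NormedSpace.exp (t • Y) * Bᴴ * NormedSpace.exp (t • (-Y))) *
        (A - NormedSpace.exp (t • Y) * B * NormedSpace.exp (t • (-Y))))) with hφ
  have hφeq : ∀ t, φ t = nsq ((A - NormedSpace.exp (t • Y) * B * (NormedSpace.exp (t • Y))ᴴ)ᴴ *
      (A - NormedSpace.exp (t • Y) * B * (NormedSpace.exp (t • Y))ᴴ)) := by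
    intro t
    rw [hexp t]
    have h1 : (A - NormedSpace.exp (t • Y) * B * NormedSpace.exp (t • (-Y)))ᴴ =
        Aᴴ - NormedSpace.exp (t • Y) * Bᴴ * NormedSpace.exp (t • (-Y)) := by
      rw [Matrix.conjTranspose_sub, Matrix.conjTranspose_mul, Matrix.conjTranspose_mul, ← hexp t,
        Matrix.conjTranspose_conjTranspose, ← Matrix.mul_assoc]
    have h2 : nsq ((A - NormedSpace.exp (t • Y) * B * NormedSpace.exp (t • (-Y)))ᴴ *
        (A - NormedSpace.exp (t • Y) * B * NormedSpace.exp (t • (-Y)))) =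
        reTr ((A - NormedSpace.exp (t • Y) * B * NormedSpace.exp (t • (-Y)))ᴴ *
        (A - NormedSpace.exp (t • Y) * B * NormedSpace.exp (t • (-Y))) *
        ((A - NormedSpace.exp (t • Y) * B * NormedSpace.exp (t • (-Y)))ᴴ *
        (A - NormedSpace.exp (t • Y) * B * NormedSpace.exp (t • (-Y))))) := by
      rw [nsq, Matrix.conjTranspose_mul, Matrix.conjTranspose_conjTranspose, reTr_apply]
    rw [h2, h1]
  have hmin' : IsLocalMin φ 0 := by
    refine Filter.Eventually.of_forall fun t => ?_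
    have h0 : φ 0 = nsq ((A - B)ᴴ * (A - B)) := by
      rw [hφeq 0]; simp
    rw [h0, hφeq t]
    refine hmin _ ?_ ?_
    · rw [hexp]; exact hinv1 t
    · rw [hexp]; exact hinv2 t
  have hd := hasDerivAt_energy A Aᴴ B Bᴴ Y
  have h0 := hmin'.hasDerivAt_eq_zero hd
  -- compute the derivative
  set D : Matrix n n ℂ := A - B with hD
  have hDs : Aᴴ - Bᴴ = Dᴴ := by rw [hD, Matrix.conjTranspose_sub]
  rw [hDs, reTr_apply] at h0
  have hZs : Zᴴ = Dᴴ * D * Dᴴ := by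
    rw [hZ, Matrix.conjTranspose_mul, Matrix.conjTranspose_mul,
      Matrix.conjTranspose_conjTranspose, ← Matrix.mul_assoc]
  have t1 : (((-(Y * Bᴴ - Bᴴ * Y)) * D + Dᴴ * (-(Y * B - B * Y))) * (Dᴴ * D) +
        (Dᴴ * D) * ((-(Y * Bᴴ - Bᴴ * Y)) * D + Dᴴ * (-(Y * B - B * Y)))).trace =
      -((Y * Y).trace + (Y * Y).trace) := by
    have e1 : ((-(Y * Bᴴ - Bᴴ * Y)) * D + Dᴴ * (-(Y * B - B * Y))) * (Dᴴ * D) +
        (Dᴴ * D) * ((-(Y * Bᴴ - Bᴴ * Y)) * D + Dᴴ * (-(Y * B - B * Y))) =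
        Bᴴ * (Y * Z) - Y * (Bᴴ * Z) + (Dᴴ * (B * Y * (Dᴴ * D)) - Dᴴ * (Y * B * (Dᴴ * D))) +
        ((Dᴴ * D) * (Bᴴ * Y * D) - (Dᴴ * D) * (Y * Bᴴ * D)) +
        ((Dᴴ * D * Dᴴ) * (B * Y) - (Dᴴ * D * Dᴴ) * (Y * B)) := by
      rw [hZ]; noncomm_ring
    rw [e1]
    simp only [Matrix.trace_add, Matrix.trace_sub]
    rw [Matrix.trace_mul_comm Bᴴ (Y * Z), Matrix.trace_mul_comm Dᴴ (B * Y * (Dᴴ * D)),
      Matrix.trace_mul_comm Dᴴ (Y * B * (Dᴴ * D)),
      Matrix.trace_mul_comm (Dᴴ * D) (Bᴴ * Y * D), Matrix.trace_mul_comm (Dᴴ * D) (Y * Bᴴ * D),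
      Matrix.trace_mul_comm (Dᴴ * D * Dᴴ) (B * Y), Matrix.trace_mul_comm (Dᴴ * D * Dᴴ) (Y * B)]
    have f1 : (B * Y * (Dᴴ * D) * Dᴴ).trace = (Y * (Zᴴ * B)).trace := by
      rw [show B * Y * (Dᴴ * D) * Dᴴ = B * (Y * Zᴴ) by rw [hZs]; noncomm_ring,
        Matrix.trace_mul_comm, Matrix.mul_assoc]
    have f2 : (Y * B * (Dᴴ * D) * Dᴴ).trace = (Y * (B * Zᴴ)).trace := by
      rw [show Y * B * (Dᴴ * D) * Dᴴ = Y * (B * Zᴴ) by rw [hZs]; noncomm_ring]
    have f3 : (Bᴴ * Y * D * (Dᴴ * D)).trace = (Y * (Z * Bᴴ)).trace := by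
      rw [show Bᴴ * Y * D * (Dᴴ * D) = Bᴴ * (Y * Z) by rw [hZ]; noncomm_ring,
        Matrix.trace_mul_comm, Matrix.mul_assoc]
    have f4 : (Y * Bᴴ * D * (Dᴴ * D)).trace = (Y * (Bᴴ * Z)).trace := by
      rw [show Y * Bᴴ * D * (Dᴴ * D) = Y * (Bᴴ * Z) by rw [hZ]; noncomm_ring]
    have f5 : (B * Y * (Dᴴ * D * Dᴴ)).trace = (Y * (Zᴴ * B)).trace := by
      rw [show B * Y * (Dᴴ * D * Dᴴ) = B * (Y * Zᴴ) by rw [hZs]; noncomm_ring,
        Matrix.trace_mul_comm, Matrix.mul_assoc]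
    have f6 : (Y * B * (Dᴴ * D * Dᴴ)).trace = (Y * (B * Zᴴ)).trace := by
      rw [show Y * B * (Dᴴ * D * Dᴴ) = Y * (B * Zᴴ) by rw [hZs]; noncomm_ring]
    have f7 : (Y * Z * Bᴴ).trace = (Y * (Z * Bᴴ)).trace := by rw [Matrix.mul_assoc]
    rw [f1, f2, f3, f4, f5, f6, f7]
    have f8 : (Y * Y).trace = (Y * (Bᴴ * Z)).trace - (Y * (Z * Bᴴ)).trace +
        (Y * (B * Zᴴ)).trace - (Y * (Zᴴ * B)).trace := by
      conv_lhs => rw [show Y * Y = Y * (Bᴴ * Z - Z * Bᴴ + B * Zᴴ - Zᴴ * B) from rfl]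
      rw [Matrix.mul_sub, Matrix.mul_add, Matrix.mul_sub]
      simp only [Matrix.trace_add, Matrix.trace_sub]
    rw [f8]
    ring
  rw [t1, Complex.neg_re, Complex.add_re] at h0
  have h1 : nsq Y = 0 := by
    rw [nsq, hYs, Matrix.neg_mul, Matrix.trace_neg, Complex.neg_re]
    linarith
  exact nsq_zero_imp Y h1

end Pool.Agent.Lib.MP_d71970_an
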